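import Mathlib
import Pool.Agent.Helper278.KLift
import Pool.Agent.Helper278.Model

/-!
Reformulation of the lifting questions for unitaries of tracial ultrapowers in terms of sequences
of unitaries of the von Neumann algebra.
-/

set_option autoImplicit false

open scoped InnerProductSpace Topology ComplexOrder BoundedContinuousFunction
open Filter

namespace Pool.Agent.W665

open Pool.Agent.Helper278

universe u

section abs

variable {A : Type u} [Ring A] [StarRing A] [Algebra ℂ A] [StarModule ℂ A]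

/-- the star algebra generated by a unitary is spanned by its integer powers -/
theorem adjoin_unitary_span (a : unitary A) (x : A)
    (hx : x ∈ StarAlgebra.adjoin ℂ ({(a : A)} : Set A)) :
    x ∈ Submodule.span ℂ (Set.range fun k : ℤ => ((a ^ k : unitary A) : A)) := by
  have hmul : ∀ x y, x ∈ Submodule.span ℂ (Set.range fun k : ℤ => ((a ^ k : unitary A) : A)) →
      y ∈ Submodule.span ℂ (Set.range fun k : ℤ => ((a ^ k : unitary A) : A)) →
      x * y ∈ Submodule.span ℂ (Set.range fun k : ℤ => ((a ^ k : unitary A) : A)) := by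
    intro x y hx hy
    induction hx using Submodule.span_induction with
    | mem x hx =>
      obtain ⟨k, rfl⟩ := hx
      induction hy using Submodule.span_induction with
      | mem y hy =>
        obtain ⟨l, rfl⟩ := hy
        refine Submodule.subset_span ⟨k + l, ?_⟩
        show ((a ^ (k + l) : unitary A) : A) = _
        rw [zpow_add]
        rfl
      | zero => rw [mul_zero]; exact Submodule.zero_mem _
      | add y z _ _ h1 h2 => rw [mul_add]; exact Submodule.add_mem _ h1 h2
      | smul c y _ h1 => rw [mul_smul_comm]; exact Submodule.smul_mem _ _ h1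
    | zero => rw [zero_mul]; exact Submodule.zero_mem _
    | add y z _ _ h1 h2 => rw [add_mul]; exact Submodule.add_mem _ h1 h2
    | smul c y _ h1 => rw [smul_mul_assoc]; exact Submodule.smul_mem _ _ h1
  induction hx using StarAlgebra.adjoin_induction with
  | mem x hx =>
    refine Submodule.subset_span ⟨1, ?_⟩
    show ((a ^ (1 : ℤ) : unitary A) : A) = x
    rw [zpow_one]
    exact hx.symm
  | algebraMap r =>
    rw [Algebra.algebraMap_eq_smul_one]
    refine Submodule.smul_mem _ _ (Submodule.subset_span ⟨0, ?_⟩)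
    show ((a ^ (0 : ℤ) : unitary A) : A) = 1
    rw [zpow_zero]
    rfl
  | add x y _ _ hx hy => exact Submodule.add_mem _ hx hy
  | mul x y _ _ hx hy => exact hmul x y hx hy
  | star x hx0 hx =>
    clear hx0
    induction hx using Submodule.span_induction with
    | mem x hx =>
      obtain ⟨k, rfl⟩ := hx
      refine Submodule.subset_span ⟨-k, ?_⟩
      show ((a ^ (-k) : unitary A) : A) = star ((a ^ k : unitary A) : A)
      rw [zpow_neg, ← Unitary.star_eq_inv]
      rfl
    | zero => rw [star_zero]; exact Submodule.zero_mem _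
    | add y z _ _ h1 h2 => rw [star_add]; exact Submodule.add_mem _ h1 h2
    | smul c y _ h1 => rw [star_smul]; exact Submodule.smul_mem _ _ h1

/-- independence of unitaries can be checked on integer powers -/
theorem indepPair_of_zpow {τ : A →ₗ[ℂ] ℂ} (h : TrAlg τ) (a b : unitary A)
    (hab : ∀ k l : ℤ, τ (((a ^ k : unitary A) : A) * ((b ^ l : unitary A) : A)) =
      τ ((a ^ k : unitary A) : A) * τ ((b ^ l : unitary A) : A)) :
    IndepPair τ (a : A) (b : A) := by
  refine indepPair_of_adjoin h _ _ fun x hx y hy => ?_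
  have hx' := adjoin_unitary_span a x hx
  have hy' := adjoin_unitary_span b y hy
  clear hx hy
  induction hx' using Submodule.span_induction with
  | mem x hx =>
    obtain ⟨k, rfl⟩ := hx
    induction hy' using Submodule.span_induction with
    | mem y hy =>
      obtain ⟨l, rfl⟩ := hy
      exact hab k l
    | zero => simp
    | add y z _ _ h1 h2 => rw [mul_add, map_add, map_add, h1, h2, mul_add]
    | smul c y _ h1 =>
      rw [mul_smul_comm, map_smul, map_smul, h1]
      simp only [smul_eq_mul]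
      ring
  | zero => simp
  | add y z _ _ h1 h2 => rw [add_mul, map_add, map_add, h1, h2, add_mul]
  | smul c y _ h1 =>
    rw [smul_mul_assoc, map_smul, map_smul, h1]
    simp only [smul_eq_mul]
    ring

end abs

variable {H : Type u} [NormedAddCommGroup H] [InnerProductSpace ℂ H] [CompleteSpace H]
variable {N : VonNeumannAlgebra H}

/-- a unitary of `N` as a unitary operator -/
def toU (N : VonNeumannAlgebra H) : unitary (Elt N) →* unitary (H →L[ℂ] H) where
  toFun a := ⟨((a : Elt N) : H →L[ℂ] H), by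
    rw [Unitary.mem_iff]
    exact ⟨congrArg Subtype.val (Unitary.coe_star_mul_self a),
      congrArg Subtype.val (Unitary.coe_mul_star_self a)⟩⟩
  map_one' := rfl
  map_mul' _ _ := rfl

theorem toU_coe (a : unitary (Elt N)) : ((toU N a : unitary (H →L[ℂ] H)) : H →L[ℂ] H) =
    ((a : Elt N) : H →L[ℂ] H) := rfl

theorem toU_zpow (a : unitary (Elt N)) (k : ℤ) :
    (((toU N a) ^ k : unitary (H →L[ℂ] H)) : H →L[ℂ] H) =
    (((a ^ k : unitary (Elt N)) : Elt N) : H →L[ℂ] H) := by
  rw [← map_zpow]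
  rfl

/-- a unitary operator that belongs to `N` as a unitary of `N` -/
def ofU (a : unitary (H →L[ℂ] H)) (ha : (a : H →L[ℂ] H) ∈ N) : unitary (Elt N) :=
  ⟨⟨(a : H →L[ℂ] H), ha⟩, by
    rw [Unitary.mem_iff]
    exact ⟨Subtype.ext (Unitary.coe_star_mul_self a), Subtype.ext (Unitary.coe_mul_star_self a)⟩⟩

theorem toU_ofU (a : unitary (H →L[ℂ] H)) (ha : (a : H →L[ℂ] H) ∈ N) : toU N (ofU a ha) = a :=
  Subtype.ext rfl

/-- the sum of vector functionals on all operators -/
noncomputable def extT (ξ : ℕ → H) (x : H →L[ℂ] H) : ℂ := ∑' i, ⟪ξ i, x (ξ i)⟫_ℂ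

theorem extT_of_mem (T : TracialState N) (ξ : ℕ → H)
    (hT : ∀ x : Elt N, T.τ x = ∑' k, ⟪ξ k, (x : H →L[ℂ] H) (ξ k)⟫_ℂ) (x : Elt N) :
    extT ξ (x : H →L[ℂ] H) = T.τ x := (hT x).symm

theorem extT_one (T : TracialState N) (ξ : ℕ → H)
    (hT : ∀ x : Elt N, T.τ x = ∑' k, ⟪ξ k, (x : H →L[ℂ] H) (ξ k)⟫_ℂ) :
    extT ξ (1 : H →L[ℂ] H) = 1 := (extT_of_mem T ξ hT 1).trans T.map_one

theorem extT_tracial (T : TracialState N) (ξ : ℕ → H)
    (hT : ∀ x : Elt N, T.τ x = ∑' k, ⟪ξ k, (x : H →L[ℂ] H) (ξ k)⟫_ℂ) :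
    ∀ x ∈ N, ∀ y ∈ N, extT ξ (x * y) = extT ξ (y * x) := by
  intro x hx y hy
  have := T.tracial ⟨x, hx⟩ ⟨y, hy⟩
  rw [← extT_of_mem T ξ hT, ← extT_of_mem T ξ hT] at this
  exact this

theorem extT_faithful (T : TracialState N) (ξ : ℕ → H)
    (hT : ∀ x : Elt N, T.τ x = ∑' k, ⟪ξ k, (x : H →L[ℂ] H) (ξ k)⟫_ℂ) :
    ∀ x ∈ N, extT ξ (star x * x) = 0 → x = 0 := by
  intro x hx h0
  have h3 := T.faithful ⟨x, hx⟩ (by
    rw [← extT_of_mem T ξ hT]
    exact h0)
  exact congrArg Subtype.val h3

/-- if the lifting problem can be solved for sequences of unitaries of `N`, then independent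
unitaries of tracial ultrapowers can be lifted -/
theorem lifts_of_seq (T : TracialState N) (ξ : ℕ → H)
    (hT : ∀ x : Elt N, T.τ x = ∑' k, ⟪ξ k, (x : H →L[ℂ] H) (ξ k)⟫_ℂ)
    (hall : ∀ (U : Ultrafilter ℕ), (U : Filter ℕ) ≤ Filter.cofinite →
    ∀ (u v : ℕ → unitary (H →L[ℂ] H)),
      (∀ n, (u n : H →L[ℂ] H) ∈ N ∧ (v n : H →L[ℂ] H) ∈ N) →
      (∀ k l : ℤ, Filter.Tendsto
          (fun n => extT ξ (((u n ^ k : unitary (H →L[ℂ] H)) : H →L[ℂ] H) *
                        ((v n ^ l : unitary (H →L[ℂ] H)) : H →L[ℂ] H)) -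
                    extT ξ ((u n ^ k : unitary (H →L[ℂ] H)) : H →L[ℂ] H) *
                    extT ξ ((v n ^ l : unitary (H →L[ℂ] H)) : H →L[ℂ] H))
          (U : Filter ℕ) (nhds 0)) →
      ∃ u' v' : ℕ → unitary (H →L[ℂ] H),
        (∀ n, (u' n : H →L[ℂ] H) ∈ N ∧ (v' n : H →L[ℂ] H) ∈ N) ∧
        Filter.Tendsto
          (fun n => extT ξ (star ((u' n : H →L[ℂ] H) - (u n : H →L[ℂ] H)) *
                        ((u' n : H →L[ℂ] H) - (u n : H →L[ℂ] H))))
          (U : Filter ℕ) (nhds 0) ∧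
        Filter.Tendsto
          (fun n => extT ξ (star ((v' n : H →L[ℂ] H) - (v n : H →L[ℂ] H)) *
                        ((v' n : H →L[ℂ] H) - (v n : H →L[ℂ] H))))
          (U : Filter ℕ) (nhds 0) ∧
        ∀ n (k l : ℤ),
          extT ξ (((u' n ^ k : unitary (H →L[ℂ] H)) : H →L[ℂ] H) *
             ((v' n ^ l : unitary (H →L[ℂ] H)) : H →L[ℂ] H)) =
          extT ξ ((u' n ^ k : unitary (H →L[ℂ] H)) : H →L[ℂ] H) *
          extT ξ ((v' n ^ l : unitary (H →L[ℂ] H)) : H →L[ℂ] H)) :
    LiftsIndependentPairs (Elt N) T.τ := by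
  intro U hU Q _ _ _ _ π σ hπ u hu v hv huv
  have hA := trAlg T
  obtain ⟨a, rfl⟩ := exists_unitary_lift hπ u hu
  obtain ⟨b, rfl⟩ := exists_unitary_lift hπ v hv
  have hUc : (U : Filter ℕ) ≤ Filter.cofinite := by
    rcases Ultrafilter.le_cofinite_or_eq_pure U with h1 | ⟨n, hn⟩
    · exact h1
    · exfalso
      apply hU n
      rw [hn]
      exact Ultrafilter.mem_pure.2 rfl
  have hval : ∀ x : Elt N, extT ξ (x : H →L[ℂ] H) = T.τ x := extT_of_mem T ξ hT
  obtain ⟨u', v', hmem, hu', hv', hind⟩ := hall U hUc (fun n => toU N (a n))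
    (fun n => toU N (b n))
    (fun n => ⟨(a n : Elt N).2, (b n : Elt N).2⟩)
    (fun k l => by
      have h3 := dfc_tendsto hπ a b huv k l
      refine h3.congr fun n => ?_
      rw [toU_zpow, toU_zpow, hval, hval]
      unfold dfc
      rw [← hval]
      rfl)
  let a' : ℕ → unitary (Elt N) := fun n => ofU (u' n) (hmem n).1
  let b' : ℕ → unitary (Elt N) := fun n => ofU (v' n) (hmem n).2
  refine ⟨mkB a', mkB b', fun n => (a' n).2, fun n => (b' n).2, ?_, ?_, ?_⟩
  · rw [pi_eq_iff hπ, ← hA.tendsto_iff]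
    refine hu'.congr fun n => ?_
    rw [← hval]
    rfl
  · rw [pi_eq_iff hπ, ← hA.tendsto_iff]
    refine hv'.congr fun n => ?_
    rw [← hval]
    rfl
  · intro n
    refine indepPair_of_zpow hA (a' n) (b' n) fun k l => ?_
    have h3 := hind n k l
    have e1 : ((u' n ^ k : unitary (H →L[ℂ] H)) : H →L[ℂ] H) =
        (((a' n ^ k : unitary (Elt N)) : Elt N) : H →L[ℂ] H) := toU_zpow (a' n) k
    have e2 : ((v' n ^ l : unitary (H →L[ℂ] H)) : H →L[ℂ] H) =
        (((b' n ^ l : unitary (Elt N)) : Elt N) : H →L[ℂ] H) := toU_zpow (b' n) l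
    rw [e1, e2, hval, hval] at h3
    rw [← h3, ← hval]
    rfl

/-- powers of a unitary of `N` belong to `N` -/
theorem zpow_mem' (a : unitary (H →L[ℂ] H)) (ha : (a : H →L[ℂ] H) ∈ N) (k : ℤ) :
    ((a ^ k : unitary (H →L[ℂ] H)) : H →L[ℂ] H) ∈ N := by
  have h1 := toU_zpow (N := N) (ofU a ha) k
  rw [toU_ofU] at h1
  rw [h1]
  exact (((ofU a ha) ^ k : unitary (Elt N)) : Elt N).2

section words

variable (ξ : ℕ → H) (hξ : Summable (fun k => ‖ξ k‖ ^ 2))

include hξ in
theorem extT_add (x y : H →L[ℂ] H) : extT ξ (x + y) = extT ξ x + extT ξ y := by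
  unfold extT
  rw [← Summable.tsum_add (summable_inner ξ ξ hξ hξ _) (summable_inner ξ ξ hξ hξ _)]
  congr 1
  funext k
  simp [inner_add_right]

theorem extT_smul (c : ℂ) (x : H →L[ℂ] H) : extT ξ (c • x) = c * extT ξ x := by
  unfold extT
  rw [← tsum_mul_left]
  congr 1
  funext k
  simp [inner_smul_right]

/-- the functional as a linear map -/
noncomputable def extL : (H →L[ℂ] H) →ₗ[ℂ] ℂ where
  toFun := extT ξ
  map_add' := extT_add ξ hξ
  map_smul' := extT_smul ξ

theorem extL_apply (x : H →L[ℂ] H) : extL ξ hξ x = extT ξ x := rfl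

end words

end Pool.Agent.W665
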