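import Mathlib
import Pool.Agent.W665.IndLift

/-!
Vanishing of centered words of length at most three from asymptotic independence.
-/

set_option autoImplicit false

open scoped InnerProductSpace Topology ComplexOrder BoundedContinuousFunction
open Filter

namespace Pool.Agent.W665

open Pool.Agent.Helper278

universe u

variable {H : Type u} [NormedAddCommGroup H] [InnerProductSpace ℂ H] [CompleteSpace H]
variable {N : VonNeumannAlgebra H}

/-- the operator of a power -/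
noncomputable def pw (a : unitary (H →L[ℂ] H)) (k : ℤ) : H →L[ℂ] H :=
  ((a ^ k : unitary (H →L[ℂ] H)) : H →L[ℂ] H)

theorem pw_mul (a : unitary (H →L[ℂ] H)) (k l : ℤ) : pw a k * pw a l = pw a (k + l) := by
  unfold pw
  rw [zpow_add]
  rfl

theorem pw_mem (a : unitary (H →L[ℂ] H)) (ha : (a : H →L[ℂ] H) ∈ N) (k : ℤ) : pw a k ∈ N :=
  zpow_mem' a ha k

/-- centered power -/
noncomputable def cpw (ξ : ℕ → H) (a : unitary (H →L[ℂ] H)) (k : ℤ) : H →L[ℂ] H :=
  pw a k - algebraMap ℂ (H →L[ℂ] H) (extT ξ (pw a k))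

/-- the defect -/
noncomputable def df (ξ : ℕ → H) (a b : unitary (H →L[ℂ] H)) (k l : ℤ) : ℂ :=
  extT ξ (pw a k * pw b l) - extT ξ (pw a k) * extT ξ (pw b l)

section

variable (ξ : ℕ → H) (hξ : Summable (fun k => ‖ξ k‖ ^ 2)) (h1 : extT ξ (1 : H →L[ℂ] H) = 1)

include hξ h1 in
theorem word1 (a : unitary (H →L[ℂ] H)) (k : ℤ) : extT ξ (cpw ξ a k) = 0 := by
  unfold cpw
  rw [← extL_apply ξ hξ, Algebra.algebraMap_eq_smul_one, map_sub, map_smul, extL_apply,
    extL_apply, h1]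
  simp

include hξ h1 in
theorem word2 (a b : unitary (H →L[ℂ] H)) (k l : ℤ) :
    extT ξ (cpw ξ a k * cpw ξ b l) = df ξ a b k l := by
  unfold cpw df
  rw [Algebra.algebraMap_eq_smul_one, Algebra.algebraMap_eq_smul_one, sub_mul, mul_sub, mul_sub]
  simp only [← extL_apply ξ hξ, map_sub, mul_smul_comm, smul_mul_assoc, mul_one, one_mul,
    map_smul, smul_eq_mul]
  simp only [extL_apply, h1]
  ring

include hξ h1 in
theorem word3 (htr : ∀ x ∈ N, ∀ y ∈ N, extT ξ (x * y) = extT ξ (y * x))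
    (a b : unitary (H →L[ℂ] H)) (ha : (a : H →L[ℂ] H) ∈ N) (hb : (b : H →L[ℂ] H) ∈ N)
    (k l j : ℤ) :
    extT ξ (cpw ξ a k * (cpw ξ b l * cpw ξ a j)) =
      df ξ a b (j + k) l - extT ξ (pw a k) * df ξ a b j l - extT ξ (pw a j) * df ξ a b k l := by
  have e1 : extT ξ (pw a k * (pw b l * pw a j)) = extT ξ (pw a (j + k) * pw b l) := by
    rw [← mul_assoc, htr _ (mul_mem (pw_mem a ha k) (pw_mem b hb l)) _ (pw_mem a ha j),
      ← mul_assoc, pw_mul]
  have e2 : extT ξ (pw b l * pw a j) = extT ξ (pw a j * pw b l) :=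
    htr _ (pw_mem b hb l) _ (pw_mem a ha j)
  have e3 : extT ξ (pw a k * pw a j) = extT ξ (pw a (j + k)) := by
    rw [pw_mul, add_comm]
  unfold cpw df
  rw [← e1, ← e2, ← e3]
  rw [Algebra.algebraMap_eq_smul_one, Algebra.algebraMap_eq_smul_one,
    Algebra.algebraMap_eq_smul_one]
  simp only [sub_mul, mul_sub]
  simp only [← extL_apply ξ hξ, map_sub, mul_smul_comm, smul_mul_assoc, mul_one, one_mul,
    map_smul, smul_eq_mul]
  simp only [extL_apply, h1]
  ring

end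

/-- values of the trace at powers are bounded -/
theorem norm_extT_pw (T : TracialState N) (ξ : ℕ → H)
    (hT : ∀ x : Elt N, T.τ x = ∑' k, ⟪ξ k, (x : H →L[ℂ] H) (ξ k)⟫_ℂ)
    (a : unitary (H →L[ℂ] H)) (ha : (a : H →L[ℂ] H) ∈ N) (k : ℤ) : ‖extT ξ (pw a k)‖ ≤ 1 := by
  have hA := trAlg T
  have h2 : extT ξ (pw a k) = T.τ (((ofU a ha) ^ k : unitary (Elt N)) : Elt N) := by
    rw [← extT_of_mem T ξ hT, ← toU_zpow, toU_ofU]
    rfl
  rw [h2]
  refine (hA.norm_le _).trans ?_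
  have h3 := n2_mul_le T (((ofU a ha) ^ k : unitary (Elt N)) : Elt N) 1
  rw [mul_one, hA.n2_one, mul_one] at h3
  exact h3.trans (norm_unitary_le _)

theorem words_tendsto (T : TracialState N) (ξ : ℕ → H) (hξ : Summable (fun k => ‖ξ k‖ ^ 2))
    (hT : ∀ x : Elt N, T.τ x = ∑' k, ⟪ξ k, (x : H →L[ℂ] H) (ξ k)⟫_ℂ) (F : Filter ℕ)
    (u v : ℕ → unitary (H →L[ℂ] H))
    (hu : ∀ n, (u n : H →L[ℂ] H) ∈ N) (hv : ∀ n, (v n : H →L[ℂ] H) ∈ N)
    (hd : ∀ k l : ℤ, Tendsto (fun n => df ξ (u n) (v n) k l) F (𝓝 0)) (m : ℕ) (hm1 : 1 ≤ m)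
    (hm3 : m ≤ 3) (s : ℕ) (e : Fin m → ℤ) :
    Tendsto (fun n => extT ξ (List.prod (List.ofFn (fun i : Fin m =>
      cpw ξ (if (i.val + s) % 2 = 0 then u n else v n) (e i))))) F (𝓝 0) := by
  have h1 := extT_one T ξ hT
  have htr := extT_tracial T ξ hT
  have hd' : ∀ k l : ℤ, Tendsto (fun n => df ξ (v n) (u n) k l) F (𝓝 0) := by
    intro k l
    refine (hd l k).congr fun n => ?_
    unfold df
    rw [htr _ (pw_mem _ (hu n) l) _ (pw_mem _ (hv n) k), mul_comm (extT ξ (pw (u n) l))]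
  have hb : ∀ (p q : ℕ → unitary (H →L[ℂ] H)), (∀ n, (p n : H →L[ℂ] H) ∈ N) →
      (∀ n, (q n : H →L[ℂ] H) ∈ N) →
      (∀ k l : ℤ, Tendsto (fun n => df ξ (p n) (q n) k l) F (𝓝 0)) → ∀ k l j : ℤ,
      Tendsto (fun n => extT ξ (cpw ξ (p n) k * (cpw ξ (q n) l * cpw ξ (p n) j))) F (𝓝 0) := by
    intro p q hp hq hpq k l j
    have t1 := hpq (j + k) l
    have t2 : ∀ k' j' : ℤ, Tendsto (fun n => extT ξ (pw (p n) k') * df ξ (p n) (q n) j' l) F
        (𝓝 0) := by
      intro k' j'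
      rw [tendsto_zero_iff_norm_tendsto_zero]
      have t3 := (hpq j' l).norm
      rw [norm_zero] at t3
      refine squeeze_zero (fun n => norm_nonneg _) (fun n => ?_) t3
      rw [norm_mul]
      exact mul_le_of_le_one_left (norm_nonneg _) (norm_extT_pw T ξ hT _ (hp n) k')
    have t4 := (t1.sub (t2 k j)).sub (t2 j k)
    rw [sub_zero, sub_zero] at t4
    refine t4.congr fun n => ?_
    rw [word3 ξ hξ h1 htr (p n) (q n) (hp n) (hq n)]
  have hs : s % 2 = 0 ∨ s % 2 = 1 := Nat.mod_two_eq_zero_or_one s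
  have hm : m = 1 ∨ m = 2 ∨ m = 3 := by omega
  rcases hm with rfl | rfl | rfl
  · refine tendsto_const_nhds.congr fun n => ?_
    rw [List.ofFn_succ, List.ofFn_zero, List.prod_cons, List.prod_nil, mul_one, word1 ξ hξ h1]
  · rcases hs with hs | hs
    · have a0 : (0 + s) % 2 = 0 := by omega
      have a1 : ¬ (0 + 1 + s) % 2 = 0 := by omega
      refine (hd (e 0) (e 1)).congr fun n => ?_
      rw [List.ofFn_succ, List.ofFn_succ, List.ofFn_zero, List.prod_cons, List.prod_cons,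
        List.prod_nil, mul_one]
      simp only [Fin.val_zero, Fin.val_succ, if_pos a0, if_neg a1]
      rw [word2 ξ hξ h1]
      rfl
    · have a0 : ¬ (0 + s) % 2 = 0 := by omega
      have a1 : (0 + 1 + s) % 2 = 0 := by omega
      refine (hd' (e 0) (e 1)).congr fun n => ?_
      rw [List.ofFn_succ, List.ofFn_succ, List.ofFn_zero, List.prod_cons, List.prod_cons,
        List.prod_nil, mul_one]
      simp only [Fin.val_zero, Fin.val_succ, if_neg a0, if_pos a1]
      rw [word2 ξ hξ h1]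
      rfl
  · rcases hs with hs | hs
    · have a0 : (0 + s) % 2 = 0 := by omega
      have a1 : ¬ (0 + 1 + s) % 2 = 0 := by omega
      have a2 : (0 + 1 + 1 + s) % 2 = 0 := by omega
      refine (hb u v hu hv hd (e 0) (e 1) (e 2)).congr fun n => ?_
      rw [List.ofFn_succ, List.ofFn_succ, List.ofFn_succ, List.ofFn_zero, List.prod_cons,
        List.prod_cons, List.prod_cons, List.prod_nil, mul_one]
      simp only [Fin.val_zero, Fin.val_succ, if_pos a0, if_neg a1, if_pos a2]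
      rfl
    · have a0 : ¬ (0 + s) % 2 = 0 := by omega
      have a1 : (0 + 1 + s) % 2 = 0 := by omega
      have a2 : ¬ (0 + 1 + 1 + s) % 2 = 0 := by omega
      refine (hb v u hv hu hd' (e 0) (e 1) (e 2)).congr fun n => ?_
      rw [List.ofFn_succ, List.ofFn_succ, List.ofFn_succ, List.ofFn_zero, List.prod_cons,
        List.prod_cons, List.prod_cons, List.prod_nil, mul_one]
      simp only [Fin.val_zero, Fin.val_succ, if_neg a0, if_pos a1, if_neg a2]
      rfl

theorem df_zero_of_word (T : TracialState N) (ξ : ℕ → H) (hξ : Summable (fun k => ‖ξ k‖ ^ 2))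
    (hT : ∀ x : Elt N, T.τ x = ∑' k, ⟪ξ k, (x : H →L[ℂ] H) (ξ k)⟫_ℂ)
    (u v : unitary (H →L[ℂ] H)) (k l : ℤ)
    (h : extT ξ (List.prod (List.ofFn (fun i : Fin 2 =>
      cpw ξ (if (i.val + 0) % 2 = 0 then u else v) ((![k, l] : Fin 2 → ℤ) i)))) = 0) :
    extT ξ (pw u k * pw v l) = extT ξ (pw u k) * extT ξ (pw v l) := by
  have h1 := extT_one T ξ hT
  rw [List.ofFn_succ, List.ofFn_succ, List.ofFn_zero, List.prod_cons, List.prod_cons,
    List.prod_nil, mul_one] at h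
  have a0 : (0 + 0) % 2 = 0 := by omega
  have a1 : ¬ (0 + 1 + 0) % 2 = 0 := by omega
  simp only [Fin.val_zero, Fin.val_succ, if_pos a0, if_neg a1] at h
  rw [word2 ξ hξ h1] at h
  exact sub_eq_zero.1 h

end Pool.Agent.W665
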